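import Pool.Agent.E8helper95.NP.Stm

/-!
# Project NP: case I, one exponent of `p` is `0`
-/

set_option autoImplicit false

namespace Pool.Agent.E8helper99.NP

open Pool.Agent.E8helper95.NP

lemma rep_succ (p m : ℕ) : rep p (m + 1) = p * rep p m + 1 := by
  unfold rep
  rw [Finset.sum_range_succ', Finset.mul_sum]
  simp [pow_succ, mul_comm]

lemma rep_succ' (p m : ℕ) : rep p (m + 1) = rep p m + (p : ℤ) ^ m := by
  unfold rep
  rw [Finset.sum_range_succ]

lemma rep_nonneg (p m : ℕ) : 0 ≤ rep p m := by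
  unfold rep
  positivity

lemma two_pow_lt {a b : ℕ} (h : a < b) : 2 * (2 : ℤ) ^ a ≤ 2 ^ b := by
  rw [← pow_succ']
  exact pow_le_pow_right₀ (by norm_num) h

theorem t_I0 : S_I0 := by
  intro k p m a₁ a₂ b₂ h hne hb
  have hp := h.hp
  have hp3 : (3 : ℤ) ≤ p := by exact_mod_cast h.hp3
  have hodd : (p : ℤ) % 2 = 1 := by
    have h2 : p % 2 = 1 := by
      rcases hp.eq_two_or_odd with h1 | h1
      · have := h.hp3; omega
      · exact h1
    omega
  obtain ⟨n, rfl⟩ : ∃ n, m = n + 2 := ⟨m - 2, by have := h.hm; omega⟩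
  have heq := h.eq
  rw [pow_zero, mul_one] at heq
  set M : ℤ := (2 : ℤ) ^ (k + 1) with hM
  set S : ℤ := rep p (n + 2) with hS
  set R : ℤ := rep p (n + 1) with hR
  set x : ℤ := (2 : ℤ) ^ a₁ with hx
  set y : ℤ := (2 : ℤ) ^ a₂ with hy
  have hSR : S = p * R + 1 := rep_succ p (n + 1)
  have hSR' : S = R + (p : ℤ) ^ (n + 1) := rep_succ' p (n + 1)
  have hRn : R = rep p n + (p : ℤ) ^ n := rep_succ' p n
  have hr0 := rep_nonneg p n
  have hpn : 1 ≤ (p : ℤ) ^ n := one_le_pow₀ (by linarith)
  have hpn1 : (p : ℤ) ^ (n + 1) = p * (p : ℤ) ^ n := pow_succ' _ _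
  have hRp : (p : ℤ) ^ n ≤ R := by rw [hRn]; linarith
  have hR1 : 1 ≤ R := le_trans hpn hRp
  have hx1 : 1 ≤ x := one_le_pow₀ (by norm_num)
  have hy1 : 1 ≤ y := one_le_pow₀ (by norm_num)
  have hxM : 2 * x ≤ M := two_pow_lt (by have := h.ha₁; omega)
  have hyM : 2 * y ≤ M := two_pow_lt (by have := h.ha₂; omega)
  have hM2 : M % 2 = 0 := by
    rw [hM, pow_succ]
    omega
  have hSp : p + 1 ≤ S := by
    rw [hSR]
    nlinarith
  have hMp : 1 ≤ M - p := by
    by_contra hcon
    push Not at hcon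
    have h1 : M - p ≤ 0 := by omega
    have h2 : (M - p) * S ≤ 0 := mul_nonpos_of_nonpos_of_nonneg h1 (by linarith)
    have h3 : 0 ≤ y * (p : ℤ) ^ b₂ := by positivity
    linarith
  rcases Nat.eq_zero_or_pos b₂ with hb0 | hb0
  · -- `b₂ = 0`
    subst hb0
    rw [pow_zero, mul_one] at heq
    have hxy : 4 * (x + y) ≤ 3 * M := by
      rcases lt_trichotomy a₁ a₂ with h1 | h1 | h1
      · have := two_pow_lt h1
        linarith
      · exfalso
        rcases hne with h2 | h2
        · exact h2 h1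
        · exact h2 rfl
      · have := two_pow_lt h1
        linarith
    have h1 : M = p + 1 := by
      by_contra hcon
      have h2 : 2 ≤ M - p := by omega
      nlinarith
    have h2 : (p : ℤ) = 3 := by
      rw [h1] at heq hxy
      have : (p : ℤ) + 1 - p = 1 := by ring
      rw [this, one_mul] at heq
      linarith
    have h3 : M = 4 := by linarith
    have hk : k = 1 := by
      have h4 : (2 : ℤ) ^ (k + 1) = 2 ^ 2 := by rw [← hM, h3]; norm_num
      have h5 := Int.pow_right_injective (by norm_num) h4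
      omega
    refine ⟨hk, by exact_mod_cast h2, ?_⟩
    have h4 : S ≤ 4 := by
      rw [h3, h2] at heq
      rw [h3] at hxy
      linarith
    rcases Nat.eq_zero_or_pos n with h5 | h5
    · rw [h5]
    · exfalso
      have h6 : (p : ℤ) ≤ (p : ℤ) ^ n := by
        calc (p : ℤ) = (p : ℤ) ^ 1 := (pow_one _).symm
          _ ≤ (p : ℤ) ^ n := pow_le_pow_right₀ (by linarith) h5
      rw [hSR] at h4
      rw [h2] at h4 h6 hRp
      linarith
  · -- `1 ≤ b₂`
    exfalso
    obtain ⟨b, rfl⟩ : ∃ b, b₂ = b + 1 := ⟨b₂ - 1, by omega⟩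
    have hbn : b ≤ n := by omega
    have hpb : (p : ℤ) ^ b ≤ (p : ℤ) ^ n := pow_le_pow_right₀ (by linarith) hbn
    have hpb1 : 1 ≤ (p : ℤ) ^ b := one_le_pow₀ (by linarith)
    have hpbs : (p : ℤ) ^ (b + 1) = p * (p : ℤ) ^ b := pow_succ' _ _
    rw [hpbs] at heq
    have hypb : y * (p : ℤ) ^ b ≤ y * (p : ℤ) ^ n := mul_le_mul_of_nonneg_left hpb (by linarith)
    have hM4 : M < 4 * p := by
      by_contra hcon
      push Not at hcon
      have e1 : 4 * ((M - p) * S) ≥ 3 * M * S := by nlinarith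
      have e2 : y * (p * (p : ℤ) ^ b) ≤ y * (p : ℤ) ^ (n + 1) := by
        rw [hpn1]
        have := mul_le_mul_of_nonneg_left hypb (by linarith : (0 : ℤ) ≤ p)
        linarith
      have e3 : 2 * (y * (p : ℤ) ^ (n + 1)) ≤ M * (p : ℤ) ^ (n + 1) := by
        have h0 : (0 : ℤ) ≤ (p : ℤ) ^ (n + 1) := by positivity
        nlinarith
      have e4 : (3 : ℤ) ≤ (p : ℤ) ^ (n + 1) := by rw [hpn1]; nlinarith
      have e5 : M * 3 ≤ M * (p : ℤ) ^ (n + 1) := mul_le_mul_of_nonneg_left e4 (by linarith)
      have e6 : M * 1 ≤ M * R := mul_le_mul_of_nonneg_left hR1 (by linarith)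
      rw [hSR'] at e1
      have e7 : (M - p) * S = (M - p) * (R + (p : ℤ) ^ (n + 1)) := by rw [hSR']
      rw [← e7, heq] at e1
      have e8 : 3 * M * (R + (p : ℤ) ^ (n + 1)) = 3 * (M * R) + 3 * (M * (p : ℤ) ^ (n + 1)) := by ring
      rw [e8] at e1
      linarith
    have hl : M - 1 - x = p * (1 + y * (p : ℤ) ^ b - (M - p) * R) := by
      rw [hSR] at heq
      linear_combination heq
    set l : ℤ := 1 + y * (p : ℤ) ^ b - (M - p) * R with hldef
    have hl0 : 0 < l := by
      have : 0 < p * l := by rw [← hl]; linarith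
      by_contra hcon
      push Not at hcon
      have h9 : (p : ℤ) * l ≤ 0 := mul_nonpos_of_nonneg_of_nonpos (by linarith) hcon
      linarith
    have hl4 : l < 4 := by
      by_contra hcon
      push Not at hcon
      have : 4 * (p : ℤ) ≤ p * l := by nlinarith
      rw [← hl] at this
      linarith
    have hy2 : y * (p : ℤ) ^ b = (1 + x) * R + (l - 1) * S := by
      have e1 : M - p = 1 + x + (l - 1) * p := by linear_combination hl
      have e2 : y * (p : ℤ) ^ b = l - 1 + (M - p) * R := by rw [hldef]; ring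
      rw [e2, e1, hSR]
      ring
    have hl' : l = 1 ∨ l = 2 ∨ l = 3 := by omega
    rcases hl' with h1 | h1 | h1
    · -- `l = 1`
      rw [h1] at hy2 hl
      have hMx : M = p + 1 + x := by linarith
      have hxe : x % 2 = 0 := by omega
      have hcop : IsCoprime (1 + x) y := by
        rw [hy]
        apply IsCoprime.pow_right
        refine ⟨1, -(x / 2), ?_⟩
        omega
      have hdv : (1 + x) ∣ (p : ℤ) ^ b := by
        apply hcop.dvd_of_dvd_mul_left
        rw [hy2]
        exact ⟨R, by ring⟩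
      have hdv' : (1 + 2 ^ a₁) ∣ p ^ b := by
        rw [hx] at hdv
        exact_mod_cast hdv
      obtain ⟨c, hc, hc'⟩ := (Nat.dvd_prime_pow hp).1 hdv'
      have hxc : 1 + x = (p : ℤ) ^ c := by
        rw [hx]
        exact_mod_cast hc'
      have hc1 : c = 1 := by
        rcases Nat.lt_trichotomy c 1 with h2 | h2 | h2
        · exfalso
          have : c = 0 := by omega
          rw [this, pow_zero] at hxc
          linarith
        · exact h2
        · exfalso
          have h3 : (p : ℤ) ^ 2 ≤ (p : ℤ) ^ c := pow_le_pow_right₀ (by linarith) h2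
          nlinarith
      rw [hc1, pow_one] at hxc
      have h4 : M = 2 * p := by linarith
      have h5 : (2 : ℤ) ^ k = p := by
        rw [hM, pow_succ] at h4
        linarith
      rcases Nat.eq_zero_or_pos k with h6 | h6
      · rw [h6, pow_zero] at h5
        linarith
      · obtain ⟨c, hc⟩ : ∃ c, k = c + 1 := ⟨k - 1, by omega⟩
        rw [hc, pow_succ] at h5
        omega
    · -- `l = 2`
      rw [h1] at hy2 hl
      have hMx : M = 2 * p + 1 + x := by linarith
      have hxo : x % 2 = 1 := by omega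
      have hx' : x = 1 := by
        rcases Nat.eq_zero_or_pos a₁ with h2 | h2
        · rw [hx, h2, pow_zero]
        · exfalso
          obtain ⟨c, hc⟩ : ∃ c, a₁ = c + 1 := ⟨a₁ - 1, by omega⟩
          rw [hx, hc, pow_succ] at hxo
          omega
      rw [hx'] at hy2 hMx
      have e1 : y ≤ p + 1 := by linarith
      have e2 : y * (p : ℤ) ^ n ≤ (p + 1) * (p : ℤ) ^ n := mul_le_mul_of_nonneg_right e1 (by linarith)
      rw [hSR', hpn1] at hy2
      linarith
    · -- `l = 3`
      rw [h1] at hy2 hl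
      have hMx : M = 3 * p + 1 + x := by linarith
      have e1 : y ≤ 2 * p := by linarith
      have e2 : y * (p : ℤ) ^ n ≤ 2 * p * (p : ℤ) ^ n := mul_le_mul_of_nonneg_right e1 (by linarith)
      rw [hSR', hpn1] at hy2
      nlinarith

end Pool.Agent.E8helper99.NP
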